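import Pool.Agent.Helper486.TP.Harm

/-!
# The triple meet of harmonic measures of disjoint fine domains

Let `n ≥ 3`, let `D₁, D₂, D₃ ⊆ ℝⁿ` be pairwise disjoint, `x_j ∈ D_j`, and let `ω_j` be the balayage
of the Dirac measure at `x_j` onto the complement of `D_j` (the harmonic measure `ω(D_j, x_j)` if
`D_j` is a fine domain). Then `ω₁ ∧ ω₂ ∧ ω₃ = 0`.
-/

namespace Pool.Agent.Results.MP_291eb9_an.TripleMeet

open Pool.Agent.Helper486.TP

/-- For pairwise disjoint sets `D 0, D 1, D 2` in `ℝⁿ`, `n ≥ 3` (in particular for pairwise disjoint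
fine domains), and points `x i ∈ D i`, the harmonic measures `ω i = ω(D i, x i)`, i.e. the balayages
of the Dirac measures at `x i` onto the complements of `D i`, have lattice infimum zero. -/
theorem result (n : ℕ) (hn : 3 ≤ n) (D : Fin 3 → Set (E n))
    (hD : ∀ i j, i ≠ j → Disjoint (D i) (D j)) (x : Fin 3 → E n) (hx : ∀ i, x i ∈ D i)
    (ω : Fin 3 → MeasureTheory.Measure (E n)) (hω : ∀ i, IsHarmonicMeasure (D i) (x i) (ω i)) :
    ω 0 ⊓ ω 1 ⊓ ω 2 = 0 :=
  triple_meet hn D hD x hx ω hω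

end Pool.Agent.Results.MP_291eb9_an.TripleMeet
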